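import Pool.Agent.helper80.SG.Spec

set_option autoImplicit false
set_option linter.unusedSectionVars false

namespace Pool.Agent.SG

open MvPolynomial Module Pool.Agent.SV

theorem EQS (hS : SGT_stmt) (hE : EQN_stmt) : EQS_stmt := by
  intro k n hk hn
  have hE' := hE k n hk hn
  let j : Fin k := ⟨0, by omega⟩
  let T : Finset (Fin k) := {⟨1, by omega⟩, ⟨2, by omega⟩, ⟨3, by omega⟩}
  refine hS k (fun _ => n) (fun _ => 1) (fun _ => by omega) (fun _ => le_refl 1) j rfl hn T ?_ ?_ ?_
  · simp [T, j]
  · simp [T]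
  · have h1 : ∑ _i : Fin k, n = k * n := by simp
    have h2 : ∏ i ∈ Finset.univ.erase j, (n + 1).choose n = (n + 1) ^ (k - 1) := by
      rw [Finset.prod_const, Finset.card_erase_of_mem (Finset.mem_univ _), Finset.card_univ,
        Fintype.card_fin, Nat.choose_succ_self_right]
    have h3 : k * n - n = (k - 1) * n := by rw [Nat.sub_mul, one_mul]
    rw [h1, h2, h3]
    exact hE'

end Pool.Agent.SG
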