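import Pool.Agent.helper80.SG.Spec

set_option autoImplicit false
set_option linter.unusedSectionVars false

namespace Pool.Agent.SG

open MvPolynomial Module Pool.Agent.SV

theorem HST : HST_stmt := by
  intro C _ _ hC g p src tgt hsrc
  obtain ⟨m, hm⟩ : ∃ m, Fintype.card C = m + 3 := ⟨Fintype.card C - 3, by omega⟩
  let e : C ≃ Fin (m + 3) := Fintype.equivFinOfCardEq hm
  have h10 : (1 : Fin (m + 3)) ≠ 0 := by
    intro h
    have := congrArg Fin.val h
    simp at this
  have h20 : (1 + 1 : Fin (m + 3)) ≠ 0 := by
    intro h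
    have := congrArg Fin.val h
    rw [Fin.val_add] at this
    simp at this
    rw [Nat.mod_eq_of_lt (by omega)] at this
    omega
  let nx : C ≃ C := (e.trans (Equiv.addRight (1 : Fin (m + 3)))).trans e.symm
  have hnx : ∀ a, e (nx a) = e a + 1 := fun a => by simp [nx]
  have h1 : ∀ a, nx a ≠ a := by
    intro a h
    have h2 := congrArg e h
    rw [hnx] at h2
    exact h10 (add_eq_left.mp h2)
  have h2 : ∀ a, nx (nx a) ≠ a := by
    intro a h
    have h2 := congrArg e h
    rw [hnx, hnx, add_assoc] at h2
    exact h20 (add_eq_left.mp h2)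
  refine ⟨fun γ => if nx (src γ) = tgt γ then nx (nx (src γ)) else nx (src γ), fun γ => ?_,
    fun v => ?_⟩
  · by_cases h : nx (src γ) = tgt γ
    · simp only [h, if_true]
      refine ⟨?_, h1 _⟩
      rw [← h]
      exact h2 _
    · simp only [h, if_false]
      exact ⟨h1 _, fun h' => h h'⟩
  · have hsub : (Finset.univ.filter (fun γ =>
        (if nx (src γ) = tgt γ then nx (nx (src γ)) else nx (src γ)) = v)) ⊆
        (Finset.univ.filter (fun γ => src γ = nx.symm v)) ∪
        (Finset.univ.filter (fun γ => src γ = nx.symm (nx.symm v))) := by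
      intro γ hγ
      simp only [Finset.mem_filter, Finset.mem_univ, true_and, Finset.mem_union] at hγ ⊢
      by_cases h : nx (src γ) = tgt γ
      · rw [if_pos h] at hγ
        right
        rw [← hγ]
        simp
      · rw [if_neg h] at hγ
        left
        rw [← hγ]
        simp
    calc _ ≤ _ := Finset.card_le_card hsub
      _ ≤ _ := Finset.card_union_le _ _
      _ ≤ p + p := add_le_add (hsrc _) (hsrc _)
      _ = 2 * p := by ring

end Pool.Agent.SG
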