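import Pool.Agent.helper56.SG.SpecG

set_option autoImplicit false

open MeasureTheory Set Metric Filter Topology
open scoped ENNReal NNReal ComplexConjugate
open Pool.Agent.SG

noncomputable section

namespace Pool.Agent.SGG

theorem HYI_det (A : ℂ →L[ℂ] ℂ) : (A.restrictScalars ℝ).det = ‖A 1‖ ^ 2 := by
  have h1 : (A.restrictScalars ℝ).det = LinearMap.det ((A : ℂ →ₗ[ℂ] ℂ).restrictScalars ℝ) := rfl
  rw [h1, LinearMap.det_restrictScalars, Algebra.norm_complex_apply, LinearMap.det_ring,
    Complex.sq_norm]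
  rfl

/-- change of variables for an injective holomorphic map -/
theorem HYI_cov {G G' : ℂ → ℂ} {Ω : Set ℂ} (hΩ : MeasurableSet Ω)
    (hG : ∀ z ∈ Ω, HasDerivAt G (G' z) z)
    (hinj : InjOn G Ω) (u : ℂ → ℝ≥0∞) :
    ∫⁻ w in Ω, ENNReal.ofReal (‖G' w‖ ^ 2) * u (G w) = ∫⁻ z in G '' Ω, u z := by
  rw [lintegral_image_eq_lintegral_abs_det_fderiv_mul volume hΩ
    (fun x hx => ((hG x hx).hasFDerivAt.restrictScalars ℝ).hasFDerivWithinAt) hinj]
  refine setLIntegral_congr_fun hΩ fun w _ => ?_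
  rw [HYI_det, abs_of_nonneg (by positivity)]
  simp

theorem HYI (hM : MOB_stmt) : HYI_stmt := by
  intro a b hab
  obtain ⟨-, hq, hball, hinv1, hinv2, hder, hone, -, hmeas⟩ := hM a b hab
  obtain ⟨-, -, hball', -, -, -, -, -, -⟩ := hM _ _ ((hM a b hab).1)
  have hinj : InjOn (mob a b) (ball (0 : ℂ) 1) := by
    intro x hx y hy hxy
    rw [← hinv1 x hx, ← hinv1 y hy, hxy]
  have himg : mob a b '' ball (0 : ℂ) 1 = ball (0 : ℂ) 1 := by
    apply Subset.antisymm
    · rintro _ ⟨z, hz, rfl⟩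
      exact hball z hz
    · intro z hz
      exact ⟨_, hball' z hz, hinv2 z hz⟩
  ext s hs
  rw [Measure.map_apply hmeas hs]
  unfold hyp
  have hs' := hmeas hs
  rw [withDensity_apply _ hs, withDensity_apply _ hs', Measure.restrict_restrict hs,
    Measure.restrict_restrict hs', ← lintegral_indicator (hs'.inter measurableSet_ball),
    ← lintegral_indicator (hs.inter measurableSet_ball)]
  have e : ∀ (t : Set ℂ) (F : ℂ → ℝ≥0∞), (t ∩ ball (0 : ℂ) 1).indicator F =
      (ball (0 : ℂ) 1).indicator (t.indicator F) := by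
    intro t F
    rw [inter_comm, indicator_indicator]
  rw [e, e, lintegral_indicator measurableSet_ball, lintegral_indicator measurableSet_ball]
  have hcov := HYI_cov measurableSet_ball hder hinj
    (s.indicator fun z => ENNReal.ofReal (((1 - ‖z‖ ^ 2) ^ 2)⁻¹))
  rw [himg] at hcov
  rw [← hcov]
  refine setLIntegral_congr_fun measurableSet_ball fun z hz => ?_
  by_cases hzs : mob a b z ∈ s
  · rw [indicator_of_mem hzs, indicator_of_mem (show z ∈ mob a b ⁻¹' s from hzs),
      ← ENNReal.ofReal_mul (by positivity)]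
    congr 1
    have hz1 : ‖z‖ < 1 := by simpa [mem_ball, dist_zero_right] using hz
    have hq1 : 0 < ‖conj b * z + conj a‖ := norm_pos_iff.mpr (hq z hz1.le)
    have hz2 : 0 < 1 - ‖z‖ ^ 2 := by nlinarith [norm_nonneg z]
    rw [hone z hz, norm_div, norm_one, norm_pow]
    field_simp
  · rw [indicator_of_notMem hzs, indicator_of_notMem (show z ∉ mob a b ⁻¹' s from hzs), mul_zero]

end Pool.Agent.SGG
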