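import Pool.Agent.helper56.SG.SpecG

set_option autoImplicit false

open MeasureTheory Set Metric Filter Topology
open scoped ENNReal NNReal ComplexConjugate
open Pool.Agent.SG

noncomputable section

namespace Pool.Agent.SGG

theorem PPN_id (x y : ℂ) :
    ‖1 - conj x * y‖ ^ 2 - ‖x - y‖ ^ 2 = (1 - ‖x‖ ^ 2) * (1 - ‖y‖ ^ 2) := by
  rw [Complex.sq_norm, Complex.sq_norm, Complex.sq_norm, Complex.sq_norm]
  simp only [Complex.normSq_apply, Complex.sub_re, Complex.sub_im, Complex.one_re, Complex.one_im,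
    Complex.mul_re, Complex.mul_im, Complex.conj_re, Complex.conj_im]
  ring

theorem PPN : PPN_stmt := by
  intro r hr x hx
  have hxr : ‖x‖ < r := by simpa [mem_ball, dist_zero_right] using hx
  have hx0 : 0 ≤ ‖x‖ := norm_nonneg x
  have hlow : ∀ y : ℂ, ‖y‖ < 1 → 1 - r ≤ ‖1 - conj x * y‖ := by
    intro y hy
    have h1 : ‖conj x * y‖ ≤ r := by
      rw [norm_mul, RCLike.norm_conj]
      nlinarith [norm_nonneg y]
    have h2 := norm_sub_norm_le (1 : ℂ) (conj x * y)
    rw [norm_one] at h2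
    linarith
  have hpp : ∀ y : ℂ, ‖y‖ < 1 →
      pp x y * ‖1 - conj x * y‖ ^ 2 = ‖1 - conj x * y‖ ^ 2 - ‖x - y‖ ^ 2 := by
    intro y hy
    have h1 := hlow y hy
    have h2 : 0 < ‖1 - conj x * y‖ ^ 2 := by
      have : 0 < ‖1 - conj x * y‖ := by linarith
      positivity
    unfold pp
    rw [div_mul_cancel₀ _ h2.ne', PPN_id]
  set η : ℝ := r - ‖x‖ with hη
  have hη0 : 0 < η := by linarith
  set t : ℝ := max (1 / 2) (1 - η ^ 2 / 16) with ht
  have ht0 : 0 < t := lt_of_lt_of_le (by norm_num) (le_max_left _ _)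
  have ht1 : t < 1 := by
    rw [ht, max_lt_iff]
    constructor
    · norm_num
    · have : 0 < η ^ 2 := by positivity
      linarith
  have ht2 : 1 - η ^ 2 / 16 ≤ t := le_max_right _ _
  refine ⟨t, ht0, ht1, fun y hy hty => ?_, ?_⟩
  · have hy1 : ‖y‖ < 1 := by simpa [mem_ball, dist_zero_right] using hy
    have h1 := hpp y hy1
    have h2 : ‖1 - conj x * y‖ ≤ 2 := by
      have h3 := norm_sub_le (1 : ℂ) (conj x * y)
      rw [norm_one, norm_mul, RCLike.norm_conj] at h3
      nlinarith [norm_nonneg y]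
    have h4 : ‖1 - conj x * y‖ ^ 2 ≤ 4 := by nlinarith [norm_nonneg (1 - conj x * y)]
    have h5 : ‖x - y‖ ^ 2 ≤ (η / 2) ^ 2 := by
      have h6 : 0 ≤ ‖1 - conj x * y‖ ^ 2 := by positivity
      nlinarith
    have h7 : ‖x - y‖ ≤ η / 2 := (abs_le.mp (abs_le_of_sq_le_sq h5 (by positivity))).2
    rw [mem_ball, dist_zero_right]
    have h8 : ‖y‖ ≤ ‖x‖ + ‖x - y‖ := by
      have := norm_sub_norm_le y x
      rw [norm_sub_rev] at this
      linarith
    linarith
  · obtain ⟨u, hu⟩ : ∃ u : ℂ, ‖u‖ = 1 ∧ ∀ s : ℝ, 0 < s → ‖x + s * u‖ = ‖x‖ + s := by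
      by_cases h0 : x = 0
      · refine ⟨1, norm_one, fun s hs => ?_⟩
        rw [h0, zero_add, mul_one, norm_zero, zero_add, Complex.norm_real, Real.norm_eq_abs,
          abs_of_pos hs]
      · have hn : ‖x‖ ≠ 0 := norm_ne_zero_iff.mpr h0
        have hn' : (‖x‖ : ℂ) ≠ 0 := by exact_mod_cast hn
        have hnp : 0 < ‖x‖ := norm_pos_iff.mpr h0
        refine ⟨x / ‖x‖, ?_, fun s hs => ?_⟩
        · rw [norm_div, Complex.norm_real, Real.norm_eq_abs, abs_of_pos hnp, div_self hn]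
        · have h1 : x + s * (x / ‖x‖) = ((1 + s / ‖x‖ : ℝ) : ℂ) * x := by
            push_cast
            field_simp
          rw [h1, norm_mul, Complex.norm_real, Real.norm_eq_abs, abs_of_pos (by positivity)]
          field_simp
    obtain ⟨hu1, hu2⟩ := hu
    set s : ℝ := min (η / 2) ((1 - r) * (1 - t) / 2) with hs
    have hr1 : 0 < 1 - r := by linarith
    have ht3 : 0 < 1 - t := by linarith
    have hs0 : 0 < s := lt_min (by positivity) (by positivity)
    have hs1 : s ≤ η / 2 := min_le_left _ _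
    have hs2 : s ≤ (1 - r) * (1 - t) / 2 := min_le_right _ _
    have hny := hu2 s hs0
    have hyr : ‖x + s * u‖ < r := by rw [hny]; linarith
    refine ⟨x + s * u, by rw [mem_ball, dist_zero_right]; exact hyr, ?_, by rw [hny]; linarith⟩
    have h1 := hpp (x + s * u) (by linarith)
    have h2 := hlow (x + s * u) (by linarith)
    have h3 : ‖x - (x + s * u)‖ = s := by
      rw [sub_add_cancel_left, norm_neg, norm_mul, hu1, mul_one, Complex.norm_real,
        Real.norm_eq_abs, abs_of_pos hs0]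
    rw [h3] at h1
    set q : ℝ := ‖1 - conj x * (x + s * u)‖ with hq
    have hq0 : 0 < q := by linarith
    have hqs : (1 - r) ^ 2 ≤ q ^ 2 := pow_le_pow_left₀ hr1.le h2 2
    have hss : s ^ 2 < (1 - t) * (1 - r) ^ 2 := by
      have h5 : s ^ 2 ≤ ((1 - r) * (1 - t) / 2) ^ 2 := pow_le_pow_left₀ hs0.le hs2 2
      have h6 : ((1 - r) * (1 - t) / 2) ^ 2 < (1 - t) * (1 - r) ^ 2 := by
        have h7 : 0 < (1 - t) * (1 - r) ^ 2 := by positivity
        have h8 : ((1 - r) * (1 - t) / 2) ^ 2 = (1 - t) * (1 - r) ^ 2 * ((1 - t) / 4) := by ring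
        rw [h8]
        have h9 : (1 - t) / 4 < 1 := by linarith
        nlinarith
      linarith
    have h10 : t * q ^ 2 < pp x (x + s * u) * q ^ 2 := by
      rw [h1]
      nlinarith
    exact lt_of_mul_lt_mul_right h10 (by positivity)

end Pool.Agent.SGG
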